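import Pool.Agent.Q198.WM.Stmts

namespace Pool.Agent.Q98.WMF.C7

open MeasureTheory ProbabilityTheory Finset Filter Topology
open Pool.Agent.Q198.WM

theorem norm_pow {E : Type} [NormedAddCommGroup E] (r : ℝ) (hr : 1 ≤ r)
    [Fact (1 ≤ ENNReal.ofReal r)]
    (f : Lp E (ENNReal.ofReal r) (volume : Measure unitInterval)) :
    ‖f‖ ^ r = ∫ t, ‖f t‖ ^ r := by
  have h0 : 0 < r := by linarith
  have h1 : ENNReal.ofReal r ≠ 0 := by simpa using h0
  have hr' : (ENNReal.ofReal r).toReal = r := ENNReal.toReal_ofReal h0.le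
  have hn : 0 ≤ ∫ t, ‖f t‖ ^ r := integral_nonneg fun t => by positivity
  rw [Lp.norm_def, (Lp.memLp f).eLpNorm_eq_integral_rpow_norm h1 ENNReal.ofReal_ne_top, hr',
    ENNReal.toReal_ofReal (by positivity), ← Real.rpow_mul hn, inv_mul_cancel₀ h0.ne',
    Real.rpow_one]

theorem main : TaskC7 := by
  intro hC1 hC2 hC3 p q _ _ hp hpq T S hS hT f hf
  have hp0 : 0 < p := by linarith
  have hq : 1 < q := by linarith
  have hq0 : 0 < q := by linarith
  obtain ⟨hcc, -⟩ := hC1 p hp.le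
  set u0 := Complex.reCLM.compLp f with hu0
  set v0 := Complex.imCLM.compLp f with hv0
  have eu0 : ∀ᵐ t, u0 t = (f t).re := by
    filter_upwards [Complex.reCLM.coeFn_compLp f] with t ht
    rw [hu0, ht]
    rfl
  have ev0 : ∀ᵐ t, v0 t = (f t).im := by
    filter_upwards [Complex.imCLM.coeFn_compLp f] with t ht
    rw [hv0, ht]
    rfl
  let U : ℝ → Lp ℝ (ENNReal.ofReal p) (volume : Measure unitInterval) := fun θ =>
    Real.cos θ • u0 - Real.sin θ • v0
  have hUc : Continuous U := by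
    show Continuous fun θ : ℝ => Real.cos θ • u0 - Real.sin θ • v0
    fun_prop
  have hU : ∀ θ : ℝ, ∀ᵐ t, U θ t = (Complex.exp (θ * Complex.I) * f t).re := by
    intro θ
    have h1 := Lp.coeFn_sub (Real.cos θ • u0) (Real.sin θ • v0)
    have h2 := Lp.coeFn_smul (Real.cos θ) u0
    have h3 := Lp.coeFn_smul (Real.sin θ) v0
    filter_upwards [h1, h2, h3, eu0, ev0] with t h1 h2 h3 h4 h5
    show (Real.cos θ • u0 - Real.sin θ • v0) t = _
    rw [h1, Pi.sub_apply, h2, h3, Pi.smul_apply, Pi.smul_apply, h4, h5, Complex.exp_mul_I,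
      Complex.mul_re]
    simp [← Complex.ofReal_cos, ← Complex.ofReal_sin]
  have hTU : ∀ θ : ℝ, ∀ᵐ t, T (U θ) t = (Complex.exp (θ * Complex.I) * S f t).re := by
    intro θ
    have h1 : (fun t => ((Complex.exp (θ * Complex.I) • f : Lp ℂ (ENNReal.ofReal p)
        (volume : Measure unitInterval)) t).re) =ᵐ[volume] U θ := by
      filter_upwards [hU θ, Lp.coeFn_smul (Complex.exp (θ * Complex.I)) f] with t h1 h2
      rw [h2, h1]
      rfl
    have h2 := hS _ _ h1
    rw [map_smul] at h2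
    filter_upwards [h2, Lp.coeFn_smul (Complex.exp (θ * Complex.I)) (S f)] with t h3 h4
    rw [← h3, h4]
    rfl
  have hn1 : ∀ θ : ℝ, ∫ t, |(Complex.exp (θ * Complex.I) * f t).re| ^ p = ‖U θ‖ ^ p := by
    intro θ
    rw [norm_pow p hp.le]
    refine integral_congr_ae ?_
    filter_upwards [hU θ] with t ht
    rw [ht, Real.norm_eq_abs]
  have hn2 : ∀ θ : ℝ, (∫ t, |(Complex.exp (θ * Complex.I) * S f t).re| ^ q) ^ (p / q) =
      ‖T (U θ)‖ ^ p := by
    intro θ
    have h1 : ∫ t, |(Complex.exp (θ * Complex.I) * S f t).re| ^ q = ‖T (U θ)‖ ^ q := by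
      rw [norm_pow q hq.le]
      refine integral_congr_ae ?_
      filter_upwards [hTU θ] with t ht
      rw [ht, Real.norm_eq_abs]
    rw [h1, ← Real.rpow_mul (norm_nonneg _), mul_div_cancel₀ _ hq0.ne']
  have h2 := hC2 hC1 p hp.le f (Lp.stronglyMeasurable f).measurable (Lp.memLp f)
  have h3 := hC3 hC1 p q hp hpq (S f) (Lp.stronglyMeasurable (S f)).measurable (Lp.memLp (S f))
  rw [← norm_pow p hp.le] at h2
  rw [← norm_pow q hq.le, ← Real.rpow_mul (norm_nonneg _), mul_div_cancel₀ _ hq0.ne'] at h3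
  simp only [hn1] at h2
  simp only [hn2] at h3
  have hle : ∀ u, ‖T u‖ ≤ ‖T‖ * ‖u‖ := fun u => T.le_opNorm u
  have hex : ∃ c ∈ Set.Icc (0 : ℝ) (2 * Real.pi), U c ≠ 0 := by
    by_contra hc
    push Not at hc
    have hpi := Real.pi_pos
    have e1 := hc 0 ⟨le_refl _, by linarith⟩
    have e2 := hc (Real.pi / 2) ⟨by linarith, by linarith⟩
    have e1' : u0 = 0 := by simpa [U] using e1
    have e2' : v0 = 0 := by simpa [U] using e2
    apply hf
    rw [Lp.ext_iff]
    have z1 := Lp.coeFn_zero ℝ (ENNReal.ofReal p) (volume : Measure unitInterval)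
    filter_upwards [eu0, ev0, z1, Lp.coeFn_zero ℂ (ENNReal.ofReal p)
      (volume : Measure unitInterval)] with t h4 h5 h6 h7
    rw [h7]
    rw [e1', h6] at h4
    rw [e2', h6] at h5
    exact Complex.ext h4.symm h5.symm
  have hlt : (∫ θ in (0 : ℝ)..(2 * Real.pi), ‖T (U θ)‖ ^ p) <
      ∫ θ in (0 : ℝ)..(2 * Real.pi), (‖T‖ * ‖U θ‖) ^ p := by
    refine intervalIntegral.integral_lt_integral_of_continuousOn_of_le_of_exists_lt
      (by linarith [Real.pi_pos]) ?_ ?_ ?_ ?_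
    · refine Continuous.continuousOn ?_
      exact (T.continuous.comp hUc).norm.rpow_const fun _ => Or.inr hp0.le
    · refine Continuous.continuousOn ?_
      exact (continuous_const.mul hUc.norm).rpow_const fun _ => Or.inr hp0.le
    · intro θ _
      exact Real.rpow_le_rpow (norm_nonneg _) (hle _) hp0.le
    · obtain ⟨c, hc1, hc2⟩ := hex
      exact ⟨c, hc1, Real.rpow_lt_rpow (norm_nonneg _) (hT _ hc2) hp0⟩
  have h4 : (∫ θ in (0 : ℝ)..(2 * Real.pi), (‖T‖ * ‖U θ‖) ^ p) = cc p * (‖T‖ * ‖f‖) ^ p := by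
    have h5 : ∀ θ, (‖T‖ * ‖U θ‖) ^ p = ‖T‖ ^ p * ‖U θ‖ ^ p := fun θ =>
      Real.mul_rpow (norm_nonneg _) (norm_nonneg _)
    simp only [h5]
    rw [intervalIntegral.integral_const_mul, h2, Real.mul_rpow (norm_nonneg _) (norm_nonneg _)]
    ring
  have h6 : cc p * ‖S f‖ ^ p < cc p * (‖T‖ * ‖f‖) ^ p := by
    rw [← h4]
    exact h3.trans_lt hlt
  have h7 : ‖S f‖ ^ p < (‖T‖ * ‖f‖) ^ p := lt_of_mul_lt_mul_left h6 hcc.le
  exact (Real.rpow_lt_rpow_iff (norm_nonneg _) (by positivity) hp0).1 h7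

end Pool.Agent.Q98.WMF.C7
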